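import Pool.Agent.V11146.SSat6

set_option autoImplicit false

namespace Pool.Agent.Results.MP_865e4a_co.NoLogGraph

open Pool.Agent.V11146.SSat Filter Topology Asymptotics

/-- The minimum in the definition of `ssatE` is attained. -/
lemma attained (n g : ℕ) (G : EOGraph (Fin g)) :
    ∃ H : EOGraph (Fin n), Semisaturates H G ∧ H.graph.edgeSet.ncard = ssatE n G := by
  have hne : {k | ∃ H : EOGraph (Fin n), Semisaturates H G ∧ H.graph.edgeSet.ncard = k}.Nonempty := by
    refine ⟨_, ⟨⊤, iot (Fin n), fun e _ e' _ h => iot_inj e e' h⟩, ?_, rfl⟩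
    intro u v huv hnadj
    exact absurd huv hnadj
  exact Nat.sInf_mem hne

lemma not_theta (g : ℕ) (G : EOGraph (Fin g)) :
    ¬ (fun n : ℕ => (ssatE n G : ℝ)) =Θ[atTop] (fun n : ℕ => (n : ℝ) * Real.log n) := by
  intro hΘ
  have hfreq : ∃ᶠ n : ℕ in atTop, (n : ℝ) * Real.log n ≠ 0 := by
    apply Eventually.frequently
    filter_upwards [eventually_gt_atTop 1] with n hn
    have hn' : (1 : ℝ) < n := by exact_mod_cast hn
    have := Real.log_pos hn'
    positivity
  by_cases hG : G.graph = ⊥
  · -- the complete graph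
    have h1 : (fun n : ℕ => ((n.choose 2 : ℕ) : ℝ)) =O[atTop] (fun n : ℕ => (n : ℝ) * Real.log n) := by
      have := hΘ.isBigO
      simpa only [edgeless g G hG] using this
    have h2 : (fun n : ℕ => (n : ℝ) * n) =O[atTop] (fun n : ℕ => ((n.choose 2 : ℕ) : ℝ)) := by
      apply IsBigO.of_bound 4
      filter_upwards [eventually_gt_atTop 1] with n hn
      have hn' : (2 : ℝ) ≤ n := by exact_mod_cast hn
      have hc : ((n.choose 2 : ℕ) : ℝ) = n * (n - 1) / 2 := Nat.cast_choose_two ℝ n
      rw [Real.norm_of_nonneg (by positivity), Real.norm_of_nonneg (by positivity), hc]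
      nlinarith
    have h3 : (fun n : ℕ => (n : ℝ) * Real.log n) =o[atTop] (fun n : ℕ => (n : ℝ) * n) := by
      apply (isBigO_refl _ _).mul_isLittleO
      exact Real.isLittleO_log_id_atTop.comp_tendsto tendsto_natCast_atTop_atTop
    exact isLittleO_irrefl hfreq (h3.trans_isBigO (h2.trans h1))
  · have h1 : (fun n : ℕ => (ssatE n G : ℝ)) =o[atTop] (fun n : ℕ => (n : ℝ) * Real.log n) := by
      apply isLittleO_of_tendsto' _ (ssat_little g G hG)
      filter_upwards [eventually_gt_atTop 1] with n hn h0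
      have hn' : (1 : ℝ) < n := by exact_mod_cast hn
      have := Real.log_pos hn'
      exfalso
      have h2 : (0 : ℝ) < (n : ℝ) * Real.log n := by positivity
      linarith
    exact isLittleO_irrefl hfreq (hΘ.isBigO_symm.trans_isLittleO h1)

/-- **No edge-ordered graph has semisaturation function of order `n log n`.**
For every edge-ordered graph `G` with at least one edge, `ssat_e(n, G) = o(n log n)`; and there is
no edge-ordered graph `G` at all with `ssat_e(n, G) = Θ(n log n)`. (The last clause records that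
the minimum defining `ssatE` is attained.) -/
theorem result :
    (∀ (g : ℕ) (G : EOGraph (Fin g)), G.graph ≠ ⊥ →
      Tendsto (fun n : ℕ => (ssatE n G : ℝ) / (n * Real.log n)) atTop (𝓝 0)) ∧
    (¬ ∃ (g : ℕ) (G : EOGraph (Fin g)),
      (fun n : ℕ => (ssatE n G : ℝ)) =Θ[atTop] (fun n : ℕ => (n : ℝ) * Real.log n)) ∧
    (∀ (n g : ℕ) (G : EOGraph (Fin g)),
      ∃ H : EOGraph (Fin n), Semisaturates H G ∧ H.graph.edgeSet.ncard = ssatE n G) :=
  ⟨ssat_little, fun ⟨g, G, h⟩ => not_theta g G h, attained⟩

end Pool.Agent.Results.MP_865e4a_co.NoLogGraph
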